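import Mathlib
import Pool.Agent.Work.MP_d0c231_co.Key
import Pool.Agent.Work.MP_d0c231_co.Primes

/-!
`liminf f(n)/n ≥ (16 √2 - 17)/12 > 0.4689` for the Erdős–Freud function `f(n)`.
-/

namespace Pool.Agent.Results.MP_d0c231_co.LowerBound

open Finset Filter
open scoped Pointwise

/-- `sums A n` is the set of integers `s ≤ n` of the form `s = a + b` with `a, b ∈ A`
(`a = b` allowed). -/
def sums (A : Finset ℕ) (n : ℕ) : Finset ℕ := (A + A).filter (fun s => s ≤ n)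

/-- `f n` is the maximum of the number of integers `s ≤ n` of the form `a + b`, `a, b ∈ A`, over
all sets `A` of `⌊√n⌋` integers from `{1, …, n}`. -/
def f (n : ℕ) : ℕ := ((Icc 1 n).powersetCard (Nat.sqrt n)).sup (fun A => (sums A n).card)

theorem result :
    (∀ c : ℝ, c < (16 * Real.sqrt 2 - 17) / 12 → ∀ᶠ n : ℕ in atTop, c * n ≤ f n) ∧
    (4689 / 10000 : ℝ) < (16 * Real.sqrt 2 - 17) / 12 := by
  have hs2 : Real.sqrt 2 ^ 2 = 2 := Real.sq_sqrt (by norm_num)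
  have hs0 : 0 ≤ Real.sqrt 2 := Real.sqrt_nonneg 2
  have hlow : (1.4142 : ℝ) < Real.sqrt 2 := by
    rw [Real.lt_sqrt (by norm_num)]; norm_num
  have hhigh : Real.sqrt 2 < (1.4143 : ℝ) := by
    rw [Real.sqrt_lt' (by norm_num)]; norm_num
  refine ⟨fun c hc => ?_, by linarith⟩
  rcases le_or_gt c 0 with hc0 | hc0
  · exact Eventually.of_forall fun n => by
      have h1 : c * n ≤ 0 := mul_nonpos_of_nonpos_of_nonneg hc0 (Nat.cast_nonneg n)
      exact h1.trans (Nat.cast_nonneg _)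
  -- the constant
  obtain ⟨c', hcc', hc'⟩ := exists_between hc
  have hc'0 : 0 < c' := hc0.trans hcc'
  set x : ℝ := 2 * Real.sqrt 2 - 2 with hx
  have hx1 : 1 / 2 < x := by rw [hx]; linarith
  have hx2 : x < 1 := by rw [hx]; linarith
  have hC : 4 * c' < 2 - x ^ 3 / 6 - (1 - x) ^ 2 := by
    have h3 : Real.sqrt 2 ^ 3 = 2 * Real.sqrt 2 := by
      calc Real.sqrt 2 ^ 3 = Real.sqrt 2 ^ 2 * Real.sqrt 2 := by ring
        _ = 2 * Real.sqrt 2 := by rw [hs2]
    have : 2 - x ^ 3 / 6 - (1 - x) ^ 2 = 4 * ((16 * Real.sqrt 2 - 17) / 12) := by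
      rw [hx]
      linear_combination (-4 / 3 : ℝ) * h3
    rw [this]; linarith
  obtain ⟨p0, hp0⟩ := Pool.Agent.Work.MP_d0c231_co.key x (4 * c') hx1 hx2 hC
  -- short intervals
  set d : ℝ := (c + c') / 2 with hd
  have hcd : c < d := by rw [hd]; linarith
  have hdc' : d < c' := by rw [hd]; linarith
  have hd0 : 0 < d := hc0.trans hcd
  set η : ℝ := (1 - d / c') / 2 with hη
  have hdc : d / c' < 1 := by rw [div_lt_one hc'0]; exact hdc'
  have hdc0 : 0 < d / c' := div_pos hd0 hc'0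
  have hη0 : 0 < η := by rw [hη]; linarith
  have hη1 : η < 1 := by rw [hη]; linarith
  have hηc : d ≤ c' * (1 - η) ^ 2 := by
    have h1 : (1 - η) ^ 2 ≥ 1 - 2 * η := by nlinarith
    have h2 : 1 - 2 * η = d / c' := by rw [hη]; ring
    have h3 : d = c' * (d / c') := by field_simp
    rw [h3]
    exact mul_le_mul_of_nonneg_left (by linarith) hc'0.le
  obtain ⟨Y, hY⟩ := Pool.Agent.Work.MP_d0c231_co.exists_prime_short η hη0 hη1
  -- threshold
  obtain ⟨T1, hT1⟩ := exists_nat_ge (2 * Y)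
  obtain ⟨T2, hT2⟩ := exists_nat_ge (2 * (p0 : ℝ) / (1 - η))
  obtain ⟨T3, hT3⟩ := exists_nat_ge (3 * c / (d - c))
  set T : ℕ := max (max T1 T2) (max T3 1) with hT
  filter_upwards [eventually_ge_atTop (T * T)] with n hn
  set t := Nat.sqrt n with ht
  have htT : T ≤ t := Nat.le_sqrt.mpr hn
  have ht1 : (T1 : ℝ) ≤ t := by
    exact_mod_cast (le_max_left _ _).trans ((le_max_left _ _).trans htT)
  have ht2 : (T2 : ℝ) ≤ t := by
    exact_mod_cast (le_max_right _ _).trans ((le_max_left _ _).trans htT)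
  have ht3 : (T3 : ℝ) ≤ t := by
    exact_mod_cast (le_max_left _ _).trans ((le_max_right _ _).trans htT)
  have ht4 : 1 ≤ t := (le_max_right _ _).trans ((le_max_right _ _).trans htT)
  have ht4R : (1 : ℝ) ≤ t := by exact_mod_cast ht4
  have htn : t * t ≤ n := Nat.sqrt_le n
  have hnt : n < (t + 1) * (t + 1) := Nat.lt_succ_sqrt n
  obtain ⟨p, hpp, hp1, hp2⟩ := hY ((t : ℝ) / 2) (by linarith)
  have hpp0 : p0 ≤ p := by
    have h1 : (p0 : ℝ) ≤ (1 - η) * ((t : ℝ) / 2) := by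
      have h2 : 2 * (p0 : ℝ) / (1 - η) ≤ t := hT2.trans ht2
      rw [div_le_iff₀ (by linarith)] at h2
      linarith
    have h3 : (p0 : ℝ) < p := by linarith
    exact_mod_cast h3.le
  have h2p : 2 * p ≤ t := by
    have : (2 * p : ℝ) ≤ t := by linarith
    exact_mod_cast this
  obtain ⟨A, hA1, hA2, hA3⟩ := hp0 p hpp0 hpp
  have hpn : 4 * (p - 1) ^ 2 ≤ n := by
    have h1 : 2 * (p - 1) ≤ t := by omega
    calc 4 * (p - 1) ^ 2 = (2 * (p - 1)) * (2 * (p - 1)) := by ring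
      _ ≤ t * t := Nat.mul_le_mul h1 h1
      _ ≤ n := htn
  have hAn : A ⊆ Icc 1 n := hA1.trans (Icc_subset_Icc le_rfl hpn)
  obtain ⟨A', hAA', hA'n, hA'c⟩ := exists_subsuperset_card_eq (n := t) hAn (by omega)
    (by rw [Nat.card_Icc]; have : t ≤ t * t := Nat.le_mul_self t; omega)
  have hf : (sums A' n).card ≤ f n :=
    le_sup (f := fun A => (sums A n).card) (mem_powersetCard.mpr ⟨hA'n, hA'c⟩)
  have hsub : (A + A).filter (fun s => s ≤ 4 * (p - 1) ^ 2) ⊆ sums A' n := by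
    intro s hs
    rw [mem_filter] at hs
    unfold sums
    rw [mem_filter]
    exact ⟨add_subset_add hAA' hAA' hs.1, hs.2.trans hpn⟩
  have hcard : (((A + A).filter (fun s => s ≤ 4 * (p - 1) ^ 2)).card : ℝ) ≤ f n := by
    exact_mod_cast (card_le_card hsub).trans hf
  refine le_trans ?_ (hA3.trans hcard)
  -- c n ≤ 4 c' p^2
  have hnR : (n : ℝ) ≤ (t + 1) * (t + 1) := by exact_mod_cast hnt.le
  have hp3 : ((1 - η) * ((t : ℝ) / 2)) ^ 2 ≤ (p : ℝ) ^ 2 := by
    have h0 : 0 ≤ (1 - η) * ((t : ℝ) / 2) := mul_nonneg (by linarith) (by linarith)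
    gcongr
  have h5 : d * (t : ℝ) ^ 2 ≤ 4 * c' * (p : ℝ) ^ 2 := by
    calc d * (t : ℝ) ^ 2 ≤ c' * (1 - η) ^ 2 * (t : ℝ) ^ 2 := by gcongr
      _ = 4 * c' * ((1 - η) * ((t : ℝ) / 2)) ^ 2 := by ring
      _ ≤ 4 * c' * (p : ℝ) ^ 2 := by gcongr
  have h6 : c * ((t + 1) * (t + 1) : ℝ) ≤ d * (t : ℝ) ^ 2 := by
    have h7 : 3 * c / (d - c) ≤ t := hT3.trans ht3
    rw [div_le_iff₀ (by linarith)] at h7
    nlinarith
  calc c * n ≤ c * ((t + 1) * (t + 1) : ℝ) := by gcongr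
    _ ≤ _ := h6
    _ ≤ _ := h5

end Pool.Agent.Results.MP_d0c231_co.LowerBound
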